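import Mathlib
import Pool.Agent.helper25.B2.Sol
import Pool.Agent.helper25.B2.Block

/-! # MP_b2b189_gt (S13780): module BC (collision points along segments) -/

set_option autoImplicit false

namespace Pool.Agent.helper25.B2

open Set Filter Topology Asymptotics

namespace Block

variable {E : Type*} [NormedAddCommGroup E] [NormedSpace ℝ E]

/-- The line through `q` in direction `w`. -/
theorem BC_line (q w : E) (t : ℝ) : HasDerivAt (fun t : ℝ => q + t • w) w t := by
  have h := ((hasDerivAt_id t).smul_const w).const_add q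
  simpa using h

theorem BC_line_tendsto (q w : E) : Tendsto (fun t : ℝ => q + t • w) (𝓝 0) (𝓝 q) := by
  have h := (BC_line q w 0).continuousAt.tendsto
  simpa using h

/-- Derivative of a function along a line. -/
theorem BC_comp {F : Type*} [NormedAddCommGroup F] [NormedSpace ℝ F] {f : E → F} {q w : E} {t : ℝ}
    (hf : DifferentiableAt ℝ f (q + t • w)) :
    HasDerivAt (fun t : ℝ => f (q + t • w)) (fderiv ℝ f (q + t • w) w) t :=
  hf.hasFDerivAt.comp_hasDerivAt t (BC_line q w t)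

/-- Integration of a `O`. -/
theorem BC_int {G G' : ℝ → ℝ} {n : ℕ} (hG : ∀ᶠ t in 𝓝 (0 : ℝ), HasDerivAt G (G' t) t) (h0 : G 0 = 0)
    (hO : G' =O[𝓝 0] (fun t : ℝ => t ^ n)) : G =O[𝓝 0] (fun t : ℝ => t ^ (n + 1)) := by
  obtain ⟨C, hC⟩ := hO.bound
  obtain ⟨ε, hε, hball⟩ := Metric.eventually_nhds_iff_ball.1 (hG.and hC)
  have hC0 : 0 ≤ C ∨ C < 0 := le_or_gt 0 C
  refine IsBigO.of_bound |C| ?_
  filter_upwards [Metric.ball_mem_nhds (0 : ℝ) hε] with t ht
  have hseg : ∀ x ∈ segment ℝ (0 : ℝ) t, x ∈ Metric.ball (0 : ℝ) ε ∧ |x| ≤ |t| := by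
    intro x hx
    have hx' : |x| ≤ |t| := by
      rw [segment_eq_uIcc] at hx
      have := abs_sub_left_of_mem_uIcc hx
      simpa using this
    refine ⟨?_, hx'⟩
    rw [mem_ball_zero_iff, Real.norm_eq_abs] at ht ⊢
    exact lt_of_le_of_lt hx' ht
  have key := (convex_segment (0 : ℝ) t).norm_image_sub_le_of_norm_hasDerivWithin_le (f := G) (f' := G')
    (C := |C| * |t| ^ n) (x := 0) (y := t)
    (fun x hx => ((hball x (hseg x hx).1).1).hasDerivWithinAt)
    (fun x hx => ?_) (left_mem_segment ℝ 0 t) (right_mem_segment ℝ 0 t)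
  · rw [h0, sub_zero, sub_zero] at key
    calc ‖G t‖ ≤ |C| * |t| ^ n * ‖t‖ := key
      _ = |C| * ‖t ^ (n + 1)‖ := by
        rw [Real.norm_eq_abs, Real.norm_eq_abs, abs_pow, pow_succ]; ring
  · have h1 := (hball x (hseg x hx).1).2
    calc ‖G' x‖ ≤ C * ‖x ^ n‖ := h1
      _ ≤ |C| * ‖x ^ n‖ := mul_le_mul_of_nonneg_right (le_abs_self C) (norm_nonneg _)
      _ = |C| * |x| ^ n := by rw [Real.norm_eq_abs, abs_pow]
      _ ≤ |C| * |t| ^ n := by
        exact mul_le_mul_of_nonneg_left (pow_le_pow_left₀ (abs_nonneg _) (hseg x hx).2 n) (abs_nonneg _)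

theorem BC_smooth_fderiv {F : Type*} [NormedAddCommGroup F] [NormedSpace ℝ F] {f : E → F} {x : E}
    (h : ContDiffAt ℝ (⊤ : ℕ∞) f x) : ContDiffAt ℝ (⊤ : ℕ∞) (fderiv ℝ f) x :=
  h.fderiv_right (m := (⊤ : ℕ∞)) (by simp)

theorem BC_smooth_diff {F : Type*} [NormedAddCommGroup F] [NormedSpace ℝ F] {f : E → F} {x : E}
    (h : ContDiffAt ℝ (⊤ : ℕ∞) f x) : DifferentiableAt ℝ f x :=
  h.differentiableAt (by simp)

/-- The function near `q` is smooth along the line. -/
theorem BC_mem_W (B : Block E) {q : E} (hq : q ∈ B.W) (w : E) :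
    ∀ᶠ t in 𝓝 (0 : ℝ), q + t • w ∈ B.W :=
  (BC_line_tendsto q w).eventually (B.isOpen_W.mem_nhds hq)

/-- The second derivative of `b` where `b = v = 0`. -/
theorem BC_snd (B : Block E) {q : E} (hq : q ∈ B.W) (hb : B.b q = 0) (hv : B.v q = 0) (w w' : E) :
    fderiv ℝ (fderiv ℝ B.b) q w w' = 2 * fderiv ℝ B.v q w * B.cm q w' := by
  have hW := BC_mem_W B hq w
  have hq0 : q + (0 : ℝ) • w = q := by simp
  -- first computation
  have h1 : HasDerivAt (fun t : ℝ => fderiv ℝ B.b (q + t • w) w') (fderiv ℝ (fderiv ℝ B.b) q w w') 0 := by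
    have hd : DifferentiableAt ℝ (fderiv ℝ B.b) (q + (0 : ℝ) • w) := by
      rw [hq0]; exact BC_smooth_diff (BC_smooth_fderiv (B.smooth_b q hq))
    have h := (BC_comp hd)
    have h' := h.clm_apply (hasDerivAt_const (0 : ℝ) w')
    simpa using h'
  have h2 : HasDerivAt (fun t : ℝ => 2 * B.b (q + t • w) * B.om (q + t • w) w' +
      2 * B.v (q + t • w) * B.cm (q + t • w) w') (2 * fderiv ℝ B.v q w * B.cm q w') 0 := by
    have hbd : HasDerivAt (fun t : ℝ => B.b (q + t • w)) (fderiv ℝ B.b q w) 0 := by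
      have := BC_comp (f := B.b) (q := q) (w := w) (t := 0)
        (by rw [hq0]; exact BC_smooth_diff (B.smooth_b q hq))
      rwa [hq0] at this
    have hvd : HasDerivAt (fun t : ℝ => B.v (q + t • w)) (fderiv ℝ B.v q w) 0 := by
      have := BC_comp (f := B.v) (q := q) (w := w) (t := 0)
        (by rw [hq0]; exact BC_smooth_diff (B.smooth_v q hq))
      rwa [hq0] at this
    have homd : HasDerivAt (fun t : ℝ => B.om (q + t • w) w') (fderiv ℝ B.om q w w') 0 := by
      have := BC_comp (f := B.om) (q := q) (w := w) (t := 0)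
        (by rw [hq0]; exact BC_smooth_diff (B.smooth_om q hq))
      rw [hq0] at this
      simpa using this.clm_apply (hasDerivAt_const (0 : ℝ) w')
    have hcmd : HasDerivAt (fun t : ℝ => B.cm (q + t • w) w') (fderiv ℝ B.cm q w w') 0 := by
      have := BC_comp (f := B.cm) (q := q) (w := w) (t := 0)
        (by rw [hq0]; exact BC_smooth_diff (B.smooth_cm q hq))
      rw [hq0] at this
      simpa using this.clm_apply (hasDerivAt_const (0 : ℝ) w')
    have hdb0 : fderiv ℝ B.b q w = 0 := by rw [B.db q hq w, hb, hv]; ring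
    have h := ((hbd.const_mul 2).mul homd).add ((hvd.const_mul 2).mul hcmd)
    refine h.congr_deriv ?_
    simp only [hq0, hb, hv, hdb0]
    ring
  have h3 : (fun t : ℝ => fderiv ℝ B.b (q + t • w) w') =ᶠ[𝓝 0]
      (fun t : ℝ => 2 * B.b (q + t • w) * B.om (q + t • w) w' +
        2 * B.v (q + t • w) * B.cm (q + t • w) w') := by
    filter_upwards [hW] with t ht
    exact B.db _ ht w'
  exact h1.unique (h2.congr_of_eventuallyEq h3)

/-- `dv = h cm` where `b = v = 0`. -/
theorem BC_dv (B : Block E) {q : E} (hq : q ∈ B.W) (hb : B.b q = 0) (hv : B.v q = 0) (w : E) :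
    fderiv ℝ B.v q w = B.h q * B.cm q w := by
  have hsymm : IsSymmSndFDerivAt ℝ B.b q :=
    (B.smooth_b q hq).isSymmSndFDerivAt (by
      rw [minSmoothness_of_isRCLikeNormedField]
      exact WithTop.coe_le_coe.2 (le_top : (2 : ℕ∞) ≤ ⊤))
  have h1 := BC_snd B hq hb hv w (B.Nm q)
  have h2 := BC_snd B hq hb hv (B.Nm q) w
  have h3 := hsymm.eq w (B.Nm q)
  rw [h1, h2, B.cm_Nm q hq, B.dv_Nm q hq, hv] at h3
  linarith

/-- Taylor expansion of `b` along lines through a point with `b = v = 0`. -/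
theorem BC_taylor (B : Block E) {q : E} (hq : q ∈ B.W) (hb : B.b q = 0) (hv : B.v q = 0) (w : E) :
    (fun t : ℝ => B.b (q + t • w) - B.h q * (B.cm q w) ^ 2 * t ^ 2) =O[𝓝 0] (fun t : ℝ => t ^ 3) := by
  have hW := BC_mem_W B hq w
  have hq0 : q + (0 : ℝ) • w = q := by simp
  set c : ℝ := B.h q * (B.cm q w) ^ 2 with hc
  -- second derivative
  have h2 : (fun t : ℝ => fderiv ℝ (fderiv ℝ B.b) (q + t • w) w w - 2 * c) =O[𝓝 0] (fun t : ℝ => t ^ 1) := by
    have hd : DifferentiableAt ℝ (fderiv ℝ (fderiv ℝ B.b)) (q + (0 : ℝ) • w) := by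
      rw [hq0]; exact BC_smooth_diff (BC_smooth_fderiv (BC_smooth_fderiv (B.smooth_b q hq)))
    have hc1 := BC_comp (F := E →L[ℝ] E →L[ℝ] ℝ) hd
    have ha0 : HasDerivAt (fun t : ℝ => fderiv ℝ (fderiv ℝ B.b) (q + t • w) w)
        (fderiv ℝ (fderiv ℝ (fderiv ℝ B.b)) (q + (0 : ℝ) • w) w w) 0 := by
      simpa using hc1.clm_apply (hasDerivAt_const (0 : ℝ) w)
    have h : HasDerivAt (fun t : ℝ => fderiv ℝ (fderiv ℝ B.b) (q + t • w) w w)
        (fderiv ℝ (fderiv ℝ (fderiv ℝ B.b)) (q + (0 : ℝ) • w) w w w) 0 := by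
      simpa using ha0.clm_apply (hasDerivAt_const (0 : ℝ) w)
    have h' := h.isBigO_sub
    have hval : fderiv ℝ (fderiv ℝ B.b) (q + (0 : ℝ) • w) w w = 2 * c := by
      rw [hq0, BC_snd B hq hb hv, BC_dv B hq hb hv, hc]; ring
    simp only [hval] at h'
    simpa using h'
  have h1 : (fun t : ℝ => fderiv ℝ B.b (q + t • w) w - 2 * c * t) =O[𝓝 0] (fun t : ℝ => t ^ 2) := by
    refine BC_int (n := 1) ?_ ?_ h2
    · filter_upwards [hW] with t ht
      have hd : DifferentiableAt ℝ (fderiv ℝ B.b) (q + t • w) :=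
        BC_smooth_diff (BC_smooth_fderiv (B.smooth_b _ ht))
      have hc1 := BC_comp hd
      have h := (hc1.clm_apply (hasDerivAt_const t w)).sub ((hasDerivAt_id t).const_mul (2 * c))
      refine h.congr_deriv ?_
      simp
    · simp only [hq0]
      rw [B.db q hq w, hb, hv]; ring
  refine BC_int (n := 2) ?_ ?_ h1
  · filter_upwards [hW] with t ht
    have hd : DifferentiableAt ℝ B.b (q + t • w) := BC_smooth_diff (B.smooth_b _ ht)
    have h := (BC_comp hd).sub (((hasDerivAt_id t).pow 2).const_mul c)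
    refine h.congr_deriv ?_
    simp
    ring
  · simp only [hq0]
    rw [hb]; ring

/-- The case `a ≠ 0`, `b = 0`. -/
theorem BC_case (B : Block E) (hA : B.A)
    (hR : ∀ x ∈ B.W, B.a x * B.b x = 0 → B.h x = 0 → B.u x = 0 ∧ B.v x = 0)
    {q : E} (hq : q ∈ B.W) (ha : B.a q ≠ 0) (hb : B.b q = 0) (w : E)
    (hacc : ∃ᶠ t in 𝓝[≠] (0 : ℝ), B.a (q + t • w) * B.b (q + t • w) = 0) :
    fderiv ℝ B.s q w = 0 ∧
      (fun t : ℝ => B.a (q + t • w) * B.b (q + t • w)) =O[𝓝 0] (fun t : ℝ => t ^ 3) := by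
  have hv : B.v q = 0 := hA.2 q hq hb
  have hq0 : q + (0 : ℝ) • w = q := by simp
  have hT := BC_taylor B hq hb hv w
  set c : ℝ := B.h q * (B.cm q w) ^ 2 with hc
  have hacont : Tendsto (fun t : ℝ => B.a (q + t • w)) (𝓝 0) (𝓝 (B.a q)) :=
    (B.smooth_a q hq).continuousAt.tendsto.comp (BC_line_tendsto q w)
  have hane : ∀ᶠ t in 𝓝 (0 : ℝ), B.a (q + t • w) ≠ 0 := hacont.eventually_ne ha
  -- zeros of b accumulate
  have hfb : ∃ᶠ t in 𝓝[≠] (0 : ℝ), B.b (q + t • w) = 0 := by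
    refine (hacc.and_eventually (hane.filter_mono nhdsWithin_le_nhds)).mono ?_
    rintro t ⟨h1, h2⟩
    exact (mul_eq_zero.1 h1).resolve_left h2
  have hc0 : c = 0 := by
    by_contra hcne
    have hlim : Tendsto (fun t : ℝ => (B.b (q + t • w) - c * t ^ 2) / t ^ 2) (𝓝[≠] 0) (𝓝 0) := by
      have hlo : (fun t : ℝ => B.b (q + t • w) - c * t ^ 2) =o[𝓝[≠] 0] (fun t : ℝ => t ^ 2) := by
        refine (hT.mono nhdsWithin_le_nhds).trans_isLittleO ?_
        refine IsLittleO.mono ?_ nhdsWithin_le_nhds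
        exact isLittleO_pow_pow (by norm_num)
      exact hlo.tendsto_div_nhds_zero
    have hev : ∀ᶠ t in 𝓝[≠] (0 : ℝ), |(B.b (q + t • w) - c * t ^ 2) / t ^ 2| < |c| := by
      have := hlim.abs
      rw [abs_zero] at this
      exact this.eventually_lt_const (abs_pos.2 hcne)
    obtain ⟨t, ht1, ht2, ht3⟩ := (hfb.and_eventually (hev.and self_mem_nhdsWithin)).exists
    have ht0 : t ≠ 0 := ht3
    rw [ht1, zero_sub, neg_div, mul_div_assoc, div_self (pow_ne_zero 2 ht0), mul_one, abs_neg] at ht2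
    exact lt_irrefl _ ht2
  refine ⟨?_, ?_⟩
  · rw [B.ds q hq w, hv]
    rcases mul_eq_zero.1 (hc ▸ hc0) with h | h
    · rw [(hR q hq (by rw [hb, mul_zero]) h).1]; ring
    · rw [pow_eq_zero_iff (by norm_num)] at h
      rw [h]; ring
  · simp only [hc0, zero_mul, sub_zero] at hT
    have h := (hacont.isBigO_one ℝ).mul hT
    simpa using h

/-- BC: `s` has derivative zero along segments through non-isolated collision points. -/
theorem block_C (B : Block E) (hA : B.A)
    (hR : ∀ x ∈ B.W, B.a x * B.b x = 0 → B.h x = 0 → B.u x = 0 ∧ B.v x = 0)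
    {q : E} (hq : q ∈ B.W) (hD : B.a q * B.b q = 0) (w : E)
    (hacc : ∃ᶠ t in 𝓝[≠] (0 : ℝ), B.a (q + t • w) * B.b (q + t • w) = 0) :
    fderiv ℝ B.s q w = 0 ∧
      (fun t : ℝ => B.a (q + t • w) * B.b (q + t • w)) =O[𝓝 0] (fun t : ℝ => t ^ 3) := by
  by_cases ha : B.a q = 0
  · by_cases hb : B.b q = 0
    · have hu := hA.1 q hq ha
      have hv := hA.2 q hq hb
      refine ⟨by rw [B.ds q hq w, hu, hv]; ring, ?_⟩
      have h1 : (fun t : ℝ => B.b (q + t • w)) =O[𝓝 0] (fun t : ℝ => t ^ 2) := by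
        have hT := BC_taylor B hq hb hv w
        have h32 : (fun t : ℝ => t ^ 3) =O[𝓝 0] (fun t : ℝ => t ^ 2) :=
          (isLittleO_pow_pow (by norm_num)).isBigO
        have h2 := (hT.trans h32).add (isBigO_const_mul_self (B.h q * (B.cm q w) ^ 2) (fun t : ℝ => t ^ 2) (𝓝 0))
        simpa using h2
      have h2 : (fun t : ℝ => B.a (q + t • w)) =O[𝓝 0] (fun t : ℝ => t ^ 2) := by
        have hT := BC_taylor B.swap hq ha hu w
        have h32 : (fun t : ℝ => t ^ 3) =O[𝓝 0] (fun t : ℝ => t ^ 2) :=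
          (isLittleO_pow_pow (by norm_num)).isBigO
        have h2 := (hT.trans h32).add
          (isBigO_const_mul_self (B.swap.h q * (B.swap.cm q w) ^ 2) (fun t : ℝ => t ^ 2) (𝓝 0))
        simpa [swap] using h2
      have h3 := h2.mul h1
      refine h3.trans ?_
      have h4 : (fun t : ℝ => t ^ 4) =O[𝓝 0] (fun t : ℝ => t ^ 3) :=
        (isLittleO_pow_pow (by norm_num)).isBigO
      refine h4.congr_left ?_
      intro t; ring
    · have h := BC_case B.swap ⟨hA.2, hA.1⟩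
        (fun x hx h1 h2 => (hR x hx (by rw [mul_comm]; exact h1) h2).symm)
        hq hb ha w (hacc.mono fun t ht => by rw [mul_comm]; exact ht)
      refine ⟨h.1, ?_⟩
      refine h.2.congr_left ?_
      intro t
      exact mul_comm _ _
  · have hb : B.b q = 0 := (mul_eq_zero.1 hD).resolve_left ha
    exact BC_case B hA hR hq ha hb w hacc

end Block

end Pool.Agent.helper25.B2
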