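import Mathlib
import Pool.Agent.helper25.B2.Sol
import Pool.Agent.helper25.B2.Block
import Pool.Agent.helper58.B2.FU
import Pool.Agent.helper65.B2.BC

/-! # MP_b2b189_gt (S13780): module BA (points with `a = 0`, `u ≠ 0`) -/

set_option autoImplicit false

namespace Pool.Agent.helper25.B2

open Set Filter Topology Asymptotics

namespace Block

variable {E : Type*} [NormedAddCommGroup E] [NormedSpace ℝ E]

/-- A nonnegative function with an odd leading term has leading coefficient zero. -/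
theorem BA_odd {F : ℝ → ℝ} {n : ℕ} (hn : Odd n) {L : ℝ} (hF : ∀ᶠ t in 𝓝 (0 : ℝ), 0 ≤ F t)
    (hlim : Tendsto (fun t => F t / t ^ n) (𝓝[≠] 0) (𝓝 L)) : L = 0 := by
  apply le_antisymm
  · have h1 : Tendsto (fun t => F t / t ^ n) (𝓝[<] (0 : ℝ)) (𝓝 L) :=
      hlim.mono_left (nhdsWithin_mono _ (fun x hx => ne_of_lt hx))
    refine le_of_tendsto h1 ?_
    filter_upwards [hF.filter_mono nhdsWithin_le_nhds, self_mem_nhdsWithin] with t ht ht2
    exact div_nonpos_of_nonneg_of_nonpos ht (hn.pow_neg ht2).le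
  · have h1 : Tendsto (fun t => F t / t ^ n) (𝓝[>] (0 : ℝ)) (𝓝 L) :=
      hlim.mono_left (nhdsWithin_mono _ (fun x hx => ne_of_gt hx))
    refine ge_of_tendsto h1 ?_
    filter_upwards [hF.filter_mono nhdsWithin_le_nhds, self_mem_nhdsWithin] with t ht ht2
    exact div_nonneg ht (pow_nonneg (le_of_lt ht2) n)

/-- Slope limit of `a` along a line. -/
theorem BA_slope {f : E → ℝ} {q : E} (hf : DifferentiableAt ℝ f q) (h0 : f q = 0) (w : E) :
    Tendsto (fun t : ℝ => f (q + t • w) / t) (𝓝[≠] 0) (𝓝 (fderiv ℝ f q w)) := by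
  have hq0 : q + (0 : ℝ) • w = q := by simp
  have h := BC_comp (f := f) (q := q) (w := w) (t := 0) (by rw [hq0]; exact hf)
  rw [hq0] at h
  have h2 := hasDerivAt_iff_tendsto_slope.1 h
  refine h2.congr' ?_
  filter_upwards with t
  simp only [slope, hq0, h0, vsub_eq_sub, sub_zero, smul_eq_mul]
  rw [div_eq_inv_mul]

/-- BA: a point with `a = 0`, `u ≠ 0` is scalar with `v = 0`, `h = 0`. -/
theorem block_A (B : Block E) {q : E} (hq : q ∈ B.W) (ha : B.a q = 0) (hu : B.u q ≠ 0) :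
    B.b q = 0 ∧ B.v q = 0 ∧ B.h q = 0 := by
  have hab : ∀ w : E, ∀ᶠ t in 𝓝 (0 : ℝ), 0 ≤ B.a (q + t • w) * B.b (q + t • w) := by
    intro w
    filter_upwards [BC_mem_W B hq w] with t ht
    exact B.ab_nonneg _ ht
  have hda : ∀ w : E, fderiv ℝ B.a q w = 2 * B.u q * B.cp q w := by
    intro w; rw [B.da q hq w, ha]; ring
  have hsa : ∀ w : E, Tendsto (fun t : ℝ => B.a (q + t • w) / t) (𝓝[≠] 0)
      (𝓝 (2 * B.u q * B.cp q w)) := by
    intro w
    have h := BA_slope (BC_smooth_diff (B.smooth_a q hq)) ha w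
    rwa [hda] at h
  -- first step
  have hb : B.b q = 0 := by
    have hbc : Tendsto (fun t : ℝ => B.b (q + t • B.Np q)) (𝓝[≠] 0) (𝓝 (B.b q)) :=
      ((B.smooth_b q hq).continuousAt.tendsto.comp (BC_line_tendsto q (B.Np q))).mono_left
        nhdsWithin_le_nhds
    have h := (hsa (B.Np q)).mul hbc
    rw [B.cp_Np q hq] at h
    have h0 := BA_odd (n := 1) (by decide) (hab (B.Np q)) (h.congr (fun t => by
      rw [pow_one, div_mul_eq_mul_div]))
    have : 2 * B.u q * 1 ≠ 0 := by simpa using hu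
    exact (mul_eq_zero.1 h0).resolve_left this
  have hv : B.v q = 0 := by
    have hdb : ∀ w : E, fderiv ℝ B.b q w = 2 * B.v q * B.cm q w := by
      intro w; rw [B.db q hq w, hb]; ring
    have key : ∀ w : E, 0 ≤ (2 * B.u q * B.cp q w) * (2 * B.v q * B.cm q w) := by
      intro w
      have h1 := BA_slope (BC_smooth_diff (B.smooth_b q hq)) hb w
      rw [hdb] at h1
      have h2 := (hsa w).mul h1
      refine ge_of_tendsto h2 ?_
      filter_upwards [(hab w).filter_mono nhdsWithin_le_nhds] with t ht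
      rw [div_mul_div_comm]
      exact div_nonneg ht (mul_self_nonneg t)
    have k1 := key (B.Np q + B.Nm q)
    have k2 := key (B.Np q - B.Nm q)
    simp only [map_add, map_sub, B.cp_Np q hq, B.cp_Nm q hq, B.cm_Np q hq, B.cm_Nm q hq] at k1 k2
    have huv : B.u q * B.v q = 0 := by nlinarith
    exact (mul_eq_zero.1 huv).resolve_left hu
  refine ⟨hb, hv, ?_⟩
  -- third step
  set w : E := B.Np q + B.Nm q with hw
  have hT := BC_taylor B hq hb hv w
  have hcm : B.cm q w = 1 := by rw [hw, map_add, B.cm_Np q hq, B.cm_Nm q hq]; ring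
  have hcp : B.cp q w = 1 := by rw [hw, map_add, B.cp_Np q hq, B.cp_Nm q hq]; ring
  rw [hcm] at hT
  have hb2 : Tendsto (fun t : ℝ => B.b (q + t • w) / t ^ 2) (𝓝[≠] 0) (𝓝 (B.h q)) := by
    have hlo : (fun t : ℝ => B.b (q + t • w) - B.h q * 1 ^ 2 * t ^ 2) =o[𝓝[≠] 0] (fun t : ℝ => t ^ 2) := by
      refine (hT.mono nhdsWithin_le_nhds).trans_isLittleO ?_
      refine IsLittleO.mono ?_ nhdsWithin_le_nhds
      exact isLittleO_pow_pow (by norm_num)
    have h := hlo.tendsto_div_nhds_zero.add_const (B.h q)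
    rw [zero_add] at h
    refine h.congr' ?_
    filter_upwards [self_mem_nhdsWithin] with t ht
    have ht0 : t ≠ 0 := ht
    field_simp
    ring
  have h := (hsa w).mul hb2
  have h0 := BA_odd (n := 3) (by decide) (hab w) (h.congr (fun t => by
    rw [div_mul_div_comm, show t * t ^ 2 = t ^ 3 by ring]))
  rw [hcp] at h0
  have : 2 * B.u q * 1 ≠ 0 := by simpa using hu
  exact (mul_eq_zero.1 h0).resolve_left this

/-- A solution of a scalar linear equation vanishing at `0` vanishes near `0`. -/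
theorem BA_lin {y ω : ℝ → ℝ} (hω : ContinuousAt ω 0) (hy : ∀ᶠ t in 𝓝 (0 : ℝ), HasDerivAt y (ω t * y t) t)
    (h0 : y 0 = 0) : ∀ᶠ t in 𝓝 (0 : ℝ), y t = 0 := by
  have hbd : ∀ᶠ t in 𝓝 (0 : ℝ), |ω t| < |ω 0| + 1 := by
    have := hω.abs.tendsto
    exact this.eventually_lt_const (by linarith)
  have h := ODE_solution_unique_of_eventually (v := fun t z => ω t * z) (s := fun _ => univ)
    (K := Real.toNNReal (|ω 0| + 1)) (f := y) (g := fun _ => 0) (t₀ := 0) ?_ ?_ ?_ h0
  · exact h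
  · filter_upwards [hbd] with t ht
    refine LipschitzWith.lipschitzOnWith ?_
    refine LipschitzWith.of_dist_le_mul ?_
    intro x z
    rw [Real.dist_eq, Real.dist_eq, ← mul_sub, abs_mul, Real.coe_toNNReal _ (by positivity)]
    exact mul_le_mul_of_nonneg_right ht.le (abs_nonneg _)
  · filter_upwards [hy] with t ht
    exact ⟨ht, mem_univ _⟩
  · filter_upwards with t
    refine ⟨?_, mem_univ _⟩
    simpa using hasDerivAt_const t (0 : ℝ)

/-- BM: move along `Nm` from a point with `a = 0`, `u ≠ 0`: `a` stays `0`, `l` is constant, `s' = u`.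
Hence `|l - s|` has no local maximum among the points with `a = 0`, `u ≠ 0`. -/
theorem block_A_max [CompleteSpace E] (B : Block E) {q : E} (hq : q ∈ B.W) (ha : B.a q = 0)
    (hu : B.u q ≠ 0) :
    ∃ᶠ x in 𝓝 q, B.a x = 0 ∧ B.u x ≠ 0 ∧ |B.l q - B.s q| < |B.l x - B.s x| := by
  obtain ⟨δ, hδ, hex⟩ := exists_sol_unif (X := B.Nm) (Ω := B.W) (K := {q}) B.isOpen_W
    (fun x hx => (B.smooth_Nm x hx).of_le (by
      exact WithTop.coe_le_coe.2 (le_top : (1 : ℕ∞) ≤ ⊤))) isCompact_singleton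
    (singleton_subset_iff.2 hq)
  obtain ⟨γ, hγ0, hγ⟩ := hex q (mem_singleton q)
  have hev : ∀ᶠ t in 𝓝 (0 : ℝ), t ∈ Ioo (-δ) δ := Ioo_mem_nhds (by linarith) hδ
  have hcont : Tendsto γ (𝓝 0) (𝓝 q) := by
    have h0 : (0 : ℝ) ∈ Ioo (-δ) δ := ⟨by linarith, hδ⟩
    have := (hγ.hasDerivAt h0).continuousAt.tendsto
    rwa [hγ0] at this
  have hcomp : ∀ {f : E → ℝ} (_ : ∀ x ∈ B.W, ContDiffAt ℝ (⊤ : ℕ∞) f x), ∀ t ∈ Ioo (-δ) δ,
      HasDerivAt (fun t => f (γ t)) (fderiv ℝ f (γ t) (B.Nm (γ t))) t := by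
    intro f hf t ht
    exact (BC_smooth_diff (hf _ (hγ.mem ht))).hasFDerivAt.comp_hasDerivAt t (hγ.hasDerivAt ht)
  -- `a` vanishes along the curve
  have hom : ContinuousAt (fun t => -2 * B.om (γ t) (B.Nm (γ t))) 0 := by
    have h1 : ContinuousAt (fun x => B.om x (B.Nm x)) q :=
      ((B.smooth_om q hq).continuousAt).clm_apply ((B.smooth_Nm q hq).continuousAt)
    have h2 : ContinuousAt (fun t => B.om (γ t) (B.Nm (γ t))) 0 := by
      refine ContinuousAt.comp_of_eq (g := fun x => B.om x (B.Nm x)) (f := γ) h1 ?_ hγ0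
      exact (hγ.hasDerivAt ⟨by linarith, hδ⟩).continuousAt
    exact h2.const_mul (-2)
  have ha0 : ∀ᶠ t in 𝓝 (0 : ℝ), B.a (γ t) = 0 := by
    refine BA_lin hom ?_ (by rw [hγ0]; exact ha)
    filter_upwards [hev] with t ht
    have h := hcomp B.smooth_a t ht
    rw [B.da _ (hγ.mem ht), B.cp_Nm _ (hγ.mem ht)] at h
    refine h.congr_deriv ?_
    ring
  have hu0 : ∀ᶠ t in 𝓝 (0 : ℝ), B.u (γ t) ≠ 0 :=
    ((B.smooth_u q hq).continuousAt.tendsto.comp hcont).eventually_ne hu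
  by_contra hcon
  rw [not_frequently] at hcon
  have hmax : IsLocalMax (fun t => (B.l (γ t) - B.s (γ t)) ^ 2) 0 := by
    filter_upwards [hcont.eventually hcon, ha0, hu0] with t h1 h2 h3
    have h4 : ¬ (|B.l q - B.s q| < |B.l (γ t) - B.s (γ t)|) := fun h => h1 ⟨h2, h3, h⟩
    rw [hγ0]
    exact sq_le_sq.2 (not_lt.1 h4)
  have h0mem : (0 : ℝ) ∈ Ioo (-δ) δ := ⟨by linarith, hδ⟩
  have hd := ((hcomp B.smooth_l 0 h0mem).sub (hcomp B.smooth_s 0 h0mem)).pow 2
  have hz := hmax.hasDerivAt_eq_zero hd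
  rw [hγ0, B.dl q hq, B.ds q hq, B.ce_Nm q hq, B.cm_Nm q hq, B.cp_Nm q hq] at hz
  have hr : B.l q - B.s q ≠ 0 := by
    intro h
    have := B.P_pos q hq
    rw [h, ha] at this
    simp at this
  have : (B.l q - B.s q) * B.u q = 0 := by
    have hz' : 2 * (B.l q - B.s q) * (2 * B.k q * 0 - (B.u q * 1 + B.v q * 0)) = 0 := by
      simpa [hγ0] using hz
    linarith
  exact (mul_ne_zero hr hu) this

end Block

end Pool.Agent.helper25.B2
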